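import Pool.Agent.Helper80.TQ.Low

/-!
Three-quarter law: a window of size `O(K ^ (3/4))` for infinitely many `K` is too small.
-/

set_option autoImplicit false

open Finset Filter

namespace Pool.Agent.Helper87.TQ

open Pool.Agent.Helper25.RC (below)

/-- If `ω K / K ^ (3/4)` does not tend to infinity, there is a thick set with bounded mean square
of the representation function, none of whose elements below `2 ^ K` has a number of digits `0`
within `ω K` of `K / 2`, for infinitely many `K`. -/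
theorem neg {ω : ℕ → ℝ} (h : ¬ Tendsto (fun K : ℕ => ω K / (K : ℝ) ^ (3 / 4 : ℝ)) atTop atTop) :
    ∃ (A : Set ℕ) (c C : ℝ), 0 < c ∧ (∀ x : ℕ, 2 ≤ x → c * √x ≤ #(below A x)) ∧
      (∀ x : ℕ, ∑ n ∈ range x, (Pool.Agent.Helper25.RC.rep A n : ℝ) ^ 2 ≤ C * x) ∧
      ∃ᶠ K : ℕ in atTop, ∀ a ∈ A, a < 2 ^ K →
        ω K ≤ |(#{i ∈ range K | a / 2 ^ i % 2 = 0} : ℝ) - (K : ℝ) / 2| := by
  have h1 : ∃ T : ℝ, ∃ᶠ K : ℕ in atTop, ω K / (K : ℝ) ^ (3 / 4 : ℝ) < T := by
    by_contra hcon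
    apply h
    rw [tendsto_atTop]
    intro T
    by_contra hT
    exact hcon ⟨T, by
      rw [not_eventually] at hT
      exact hT.mono fun K hK => not_le.1 hK⟩
  obtain ⟨T, hT⟩ := h1
  obtain ⟨A, c, C, hc, h2, h3, h4⟩ := Pool.Agent.Helper80.TQ.low T
  refine ⟨A, c, C, hc, h2, h3, ?_⟩
  refine (hT.and_eventually (h4.and (eventually_gt_atTop 0))).mono ?_
  rintro K ⟨h5, h6, h7⟩ a ha haK
  have h8 := h6 a ha haK
  have hK : (0 : ℝ) < (K : ℝ) ^ (3 / 4 : ℝ) := Real.rpow_pos_of_pos (by exact_mod_cast h7) _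
  rw [div_lt_iff₀ hK] at h5
  refine le_trans ?_ (le_abs_self _)
  linarith

end Pool.Agent.Helper87.TQ
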