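import Mathlib

/-!
The digit count of a number in the block at `2 ^ (k + 1)`.
-/

namespace Pool.Agent.Helper87.TQ

open Finset Filter

/-- The number of digits `0` among the first `K` binary digits of `2 ^ (k + 1) + b`. -/
theorem dig {b k K : ℕ} (hb : b < 2 ^ k) (hK : k + 2 ≤ K) :
    #{i ∈ range K | (2 ^ (k + 1) + b) / 2 ^ i % 2 = 0} =
      #{i ∈ range k | b / 2 ^ i % 2 = 0} + (K - k - 1) := by
  obtain ⟨L, rfl⟩ := Nat.exists_eq_add_of_le hK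
  have hlow : ∀ i < k, (2 ^ (k + 1) + b) / 2 ^ i % 2 = b / 2 ^ i % 2 := by
    intro i hi
    obtain ⟨j, rfl⟩ := Nat.exists_eq_add_of_lt hi
    have e : 2 ^ (i + j + 1 + 1) + b = b + 2 ^ i * (2 * 2 ^ (j + 1)) := by
      rw [pow_succ, pow_succ, pow_add, pow_succ]
      ring
    rw [e, Nat.add_mul_div_left _ _ (by positivity), Nat.add_mul_mod_self_left]
  have hk0 : (2 ^ (k + 1) + b) / 2 ^ k % 2 = 0 := by
    rw [pow_succ, add_comm, Nat.add_mul_div_left _ _ (by positivity), Nat.div_eq_of_lt hb]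
  have hk1 : (2 ^ (k + 1) + b) / 2 ^ (k + 1) % 2 = 1 := by
    have hb' : b < 2 ^ (k + 1) := hb.trans (Nat.pow_lt_pow_right (by norm_num) (by omega))
    rw [Nat.add_div_left _ (by positivity), Nat.div_eq_of_lt hb']
  have hhigh : ∀ i, k + 2 ≤ i → (2 ^ (k + 1) + b) / 2 ^ i % 2 = 0 := by
    intro i hi
    have hlt : 2 ^ (k + 1) + b < 2 ^ i := by
      have h1 : 2 ^ (k + 2) ≤ 2 ^ i := Nat.pow_le_pow_right (by norm_num) hi
      have h2 : 2 ^ (k + 2) = 2 ^ (k + 1) + 2 * 2 ^ k := by ring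
      omega
    rw [Nat.div_eq_of_lt hlt]
  rw [card_filter, card_filter, sum_range_add, sum_range_succ, sum_range_succ, if_pos hk0,
    if_neg (by rw [hk1]; norm_num)]
  have h1 : ∑ i ∈ range k, (if (2 ^ (k + 1) + b) / 2 ^ i % 2 = 0 then 1 else 0) =
      ∑ i ∈ range k, (if b / 2 ^ i % 2 = 0 then 1 else 0) :=
    sum_congr rfl fun i hi => by rw [hlow i (mem_range.1 hi)]
  have h2 : ∑ x ∈ range L, (if (2 ^ (k + 1) + b) / 2 ^ (k + 2 + x) % 2 = 0 then 1 else 0) = L := by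
    rw [sum_congr rfl fun x _ => if_pos (hhigh (k + 2 + x) (by omega))]
    simp
  rw [h1, h2]
  omega

/-- A number below `2 ^ k0` has at most `k0` digits `1`. -/
theorem dig_small {a k0 K : ℕ} (ha : a < 2 ^ k0) :
    K - k0 ≤ #{i ∈ range K | a / 2 ^ i % 2 = 0} := by
  have h : (Ico k0 K) ⊆ {i ∈ range K | a / 2 ^ i % 2 = 0} := by
    intro i hi
    rw [mem_Ico] at hi
    rw [mem_filter, mem_range]
    refine ⟨hi.2, ?_⟩
    rw [Nat.div_eq_of_lt (ha.trans_le (Nat.pow_le_pow_right (by norm_num) hi.1))]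
  have := card_le_card h
  rwa [Nat.card_Ico] at this

/-- `T K ^ (3/4)` is below any linear function. -/
theorem small_power (T M : ℝ) : ∀ᶠ K : ℕ in atTop, T * (K : ℝ) ^ (3 / 4 : ℝ) + M ≤ (K : ℝ) / 3 := by
  have h1 : Tendsto (fun x : ℝ => x ^ (1 / 4 : ℝ)) atTop atTop := tendsto_rpow_atTop (by norm_num)
  have h2 := (h1.comp tendsto_natCast_atTop_atTop).eventually (eventually_ge_atTop (6 * |T|))
  filter_upwards [h2, eventually_ge_atTop ⌈6 * |M|⌉₊] with K hK hM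
  have hM' : 6 * |M| ≤ (K : ℝ) := (Nat.le_ceil _).trans (by exact_mod_cast hM)
  have hK' : 6 * |T| ≤ (K : ℝ) ^ (1 / 4 : ℝ) := hK
  have hK0 : (0 : ℝ) ≤ K := Nat.cast_nonneg K
  have e : (K : ℝ) ^ (1 / 4 : ℝ) * (K : ℝ) ^ (3 / 4 : ℝ) = K := by
    rw [← Real.rpow_add_of_nonneg hK0 (by norm_num) (by norm_num)]
    norm_num
  have hp : (0 : ℝ) ≤ (K : ℝ) ^ (3 / 4 : ℝ) := Real.rpow_nonneg hK0 _
  have h3 := mul_le_mul_of_nonneg_right hK' hp
  rw [e] at h3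
  have h4 := mul_le_mul_of_nonneg_right (le_abs_self T) hp
  have h5 := le_abs_self M
  linarith

/-- The digit count: from the blocks to the set. -/
theorem digits {A : Set ℕ} {T c : ℝ} (hc : 12 * |T| ≤ c) (k0 : ℕ)
    (hA : ∀ a ∈ A, a < 2 ^ k0 ∨ ∃ k b : ℕ, a = 2 ^ (k + 1) + b ∧ b < 2 ^ k ∧
      (k : ℝ) * (c * (k : ℝ) ^ (-(1 / 4) : ℝ)) / 2 ≤
        2 * (#{i ∈ range k | b / 2 ^ i % 2 = 0} : ℝ) - k) :
    ∀ᶠ K : ℕ in atTop, ∀ a ∈ A, a < 2 ^ K →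
      (K : ℝ) / 2 + T * (K : ℝ) ^ (3 / 4 : ℝ) ≤ #{i ∈ range K | a / 2 ^ i % 2 = 0} := by
  filter_upwards [small_power T (k0 + 1), small_power T 1, eventually_ge_atTop k0] with K h1 h2 h3
  intro a ha haK
  have hK0 : (0 : ℝ) ≤ K := Nat.cast_nonneg K
  rcases hA a ha with h | ⟨k, b, rfl, hb, hz⟩
  · have h4 := dig_small (K := K) h
    have h5 : (K : ℝ) - k0 ≤ (#{i ∈ range K | a / 2 ^ i % 2 = 0} : ℝ) := by
      have : ((K - k0 : ℕ) : ℝ) ≤ (#{i ∈ range K | a / 2 ^ i % 2 = 0} : ℝ) := by exact_mod_cast h4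
      rwa [Nat.cast_sub h3] at this
    linarith
  · have hkK : k + 2 ≤ K := by
      by_contra hcon
      have : 2 ^ K ≤ 2 ^ (k + 1) := Nat.pow_le_pow_right (by norm_num) (by omega)
      omega
    rw [dig hb hkK]
    have hcast : ((K - k - 1 : ℕ) : ℝ) = (K : ℝ) - k - 1 := by
      rw [Nat.cast_sub (by omega), Nat.cast_sub (by omega), Nat.cast_one]
    rw [Nat.cast_add, hcast]
    have hkK' : (k : ℝ) + 2 ≤ K := by exact_mod_cast hkK
    have hk0 : (0 : ℝ) ≤ k := Nat.cast_nonneg k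
    have hc0 : 0 ≤ c := le_trans (by positivity) hc
    rcases le_or_gt ((K : ℝ) / 3) k with h | h
    · have hkpos : (0 : ℝ) < k := by linarith
      have e1 : (k : ℝ) * (c * (k : ℝ) ^ (-(1 / 4) : ℝ)) = c * (k : ℝ) ^ (3 / 4 : ℝ) := by
        have : (k : ℝ) * (k : ℝ) ^ (-(1 / 4) : ℝ) = (k : ℝ) ^ (3 / 4 : ℝ) := by
          nth_rewrite 1 [← Real.rpow_one (k : ℝ)]
          rw [← Real.rpow_add hkpos]
          norm_num
        rw [← this]
        ring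
      rw [e1] at hz
      have e2 : (K : ℝ) ^ (3 / 4 : ℝ) ≤ 3 * (k : ℝ) ^ (3 / 4 : ℝ) := by
        calc (K : ℝ) ^ (3 / 4 : ℝ) ≤ (3 * k : ℝ) ^ (3 / 4 : ℝ) :=
              Real.rpow_le_rpow hK0 (by linarith) (by norm_num)
          _ = (3 : ℝ) ^ (3 / 4 : ℝ) * (k : ℝ) ^ (3 / 4 : ℝ) :=
              Real.mul_rpow (by norm_num) hk0
          _ ≤ 3 * (k : ℝ) ^ (3 / 4 : ℝ) := by
              refine mul_le_mul_of_nonneg_right ?_ (Real.rpow_nonneg hk0 _)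
              calc (3 : ℝ) ^ (3 / 4 : ℝ) ≤ (3 : ℝ) ^ (1 : ℝ) :=
                    Real.rpow_le_rpow_of_exponent_le (by norm_num) (by norm_num)
                _ = 3 := Real.rpow_one _
      have hp : (0 : ℝ) ≤ (k : ℝ) ^ (3 / 4 : ℝ) := Real.rpow_nonneg hk0 _
      have hP : (0 : ℝ) ≤ (K : ℝ) ^ (3 / 4 : ℝ) := Real.rpow_nonneg hK0 _
      have h4 : T * (K : ℝ) ^ (3 / 4 : ℝ) ≤ |T| * (3 * (k : ℝ) ^ (3 / 4 : ℝ)) :=
        (mul_le_mul_of_nonneg_right (le_abs_self T) hP).trans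
          (mul_le_mul_of_nonneg_left e2 (abs_nonneg T))
      have h5 := mul_le_mul_of_nonneg_right hc hp
      linarith
    · have h4 : 0 ≤ (k : ℝ) * (c * (k : ℝ) ^ (-(1 / 4) : ℝ)) / 2 := by positivity
      linarith

end Pool.Agent.Helper87.TQ
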