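import Mathlib
import Pool.Agent.Helper38.SP.En

/-!
# Energy of a Bernoulli product weight on the integers below `2 ^ k`

`w d k a = ∏ (1 ± d)` over the first `k` binary digits of `a` (`+` for the digit `0`).
-/

set_option autoImplicit false

open Finset

namespace Pool.Agent.Helper87.TQ

open Pool.Agent.Helper38.SP (quad sum_quad_eq)

/-- the factor of a digit -/
noncomputable def g (d : ℝ) (r : ℕ) : ℝ := if r % 2 = 0 then 1 + d else 1 - d

/-- the weight -/
noncomputable def w (d : ℝ) : ℕ → ℕ → ℝ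
  | 0, _ => 1
  | k + 1, a => g d a * w d k (a / 2)

/-- zeros minus ones among the first `k` digits -/
def X : ℕ → ℕ → ℤ
  | 0, _ => 0
  | k + 1, a => (if a % 2 = 0 then 1 else -1) + X k (a / 2)

theorem g_even (d : ℝ) (a : ℕ) : g d (2 * a) = 1 + d := by
  unfold g; rw [if_pos (by omega)]

theorem g_odd (d : ℝ) (a : ℕ) : g d (2 * a + 1) = 1 - d := by
  unfold g; rw [if_neg (by omega)]

theorem w_even (d : ℝ) (k a : ℕ) : w d (k + 1) (2 * a) = (1 + d) * w d k a := by
  show g d (2 * a) * w d k (2 * a / 2) = _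
  rw [g_even, show 2 * a / 2 = a by omega]

theorem w_odd (d : ℝ) (k a : ℕ) : w d (k + 1) (2 * a + 1) = (1 - d) * w d k a := by
  show g d (2 * a + 1) * w d k ((2 * a + 1) / 2) = _
  rw [g_odd, show (2 * a + 1) / 2 = a by omega]

theorem X_even (k a : ℕ) : X (k + 1) (2 * a) = 1 + X k a := by
  show (if 2 * a % 2 = 0 then 1 else -1) + X k (2 * a / 2) = _
  rw [if_pos (by omega), show 2 * a / 2 = a by omega]

theorem X_odd (k a : ℕ) : X (k + 1) (2 * a + 1) = -1 + X k a := by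
  show (if (2 * a + 1) % 2 = 0 then 1 else -1) + X k ((2 * a + 1) / 2) = _
  rw [if_neg (by omega), show (2 * a + 1) / 2 = a by omega]

theorem w_nonneg {d : ℝ} (h0 : 0 ≤ d) (h1 : d ≤ 1) (k a : ℕ) : 0 ≤ w d k a := by
  induction k generalizing a with
  | zero => exact zero_le_one
  | succ k ih =>
    show 0 ≤ g d a * w d k (a / 2)
    refine mul_nonneg ?_ (ih _)
    unfold g
    split_ifs <;> linarith

theorem w_le {d : ℝ} (h0 : 0 ≤ d) (h1 : d ≤ 1) (k a : ℕ) : w d k a ≤ (1 + d) ^ k := by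
  induction k generalizing a with
  | zero => exact le_of_eq (pow_zero _).symm
  | succ k ih =>
    show g d a * w d k (a / 2) ≤ _
    rw [pow_succ']
    refine mul_le_mul ?_ (ih _) (w_nonneg h0 h1 k _) (by linarith)
    unfold g
    split_ifs <;> linarith

theorem sum_split (f : ℕ → ℝ) (N : ℕ) :
    ∑ a ∈ range (2 * N), f a = ∑ a ∈ range N, (f (2 * a) + f (2 * a + 1)) := by
  induction N with
  | zero => simp
  | succ N ih =>
    rw [show 2 * (N + 1) = 2 * N + 1 + 1 by ring, sum_range_succ, sum_range_succ, ih,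
      sum_range_succ]
    ring

/-- the total weight -/
theorem sum_w (d : ℝ) (k : ℕ) : ∑ a ∈ range (2 ^ k), w d k a = 2 ^ k := by
  induction k with
  | zero => simp [w]
  | succ k ih =>
    rw [pow_succ', sum_split]
    simp_rw [w_even, w_odd]
    rw [sum_add_distrib, ← mul_sum, ← mul_sum, ih, pow_succ']
    ring

/-- the mean -/
theorem sum_wX (d : ℝ) (k : ℕ) :
    ∑ a ∈ range (2 ^ k), w d k a * ((X k a : ℝ) - k * d) = 0 := by
  induction k with
  | zero => simp [w, X]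
  | succ k ih =>
    rw [pow_succ', sum_split]
    simp_rw [w_even, w_odd, X_even, X_odd]
    have h : ∀ a ∈ range (2 ^ k),
        (1 + d) * w d k a * (((1 + X k a : ℤ) : ℝ) - ((k + 1 : ℕ) : ℝ) * d) +
          (1 - d) * w d k a * (((-1 + X k a : ℤ) : ℝ) - ((k + 1 : ℕ) : ℝ) * d) =
        2 * (w d k a * ((X k a : ℝ) - k * d)) := by
      intro a _
      push_cast
      ring
    rw [sum_congr rfl h, ← mul_sum, ih, mul_zero]

/-- the variance -/
theorem sum_wXX (d : ℝ) (k : ℕ) :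
    ∑ a ∈ range (2 ^ k), w d k a * ((X k a : ℝ) - k * d) ^ 2 = k * (1 - d ^ 2) * 2 ^ k := by
  induction k with
  | zero => simp [w, X]
  | succ k ih =>
    rw [pow_succ', sum_split]
    simp_rw [w_even, w_odd, X_even, X_odd]
    have h : ∀ a ∈ range (2 ^ k),
        (1 + d) * w d k a * (((1 + X k a : ℤ) : ℝ) - ((k + 1 : ℕ) : ℝ) * d) ^ 2 +
          (1 - d) * w d k a * (((-1 + X k a : ℤ) : ℝ) - ((k + 1 : ℕ) : ℝ) * d) ^ 2 =
        2 * (w d k a * ((X k a : ℝ) - k * d) ^ 2) + 2 * (1 - d ^ 2) * w d k a := by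
      intro a _
      push_cast
      ring
    rw [sum_congr rfl h, sum_add_distrib, ← mul_sum, ← mul_sum, ih, sum_w]
    push_cast
    ring

/-- the convolution -/
noncomputable def D (d : ℝ) (k n : ℕ) : ℝ :=
  ∑ a ∈ range (2 ^ k), ∑ b ∈ range (2 ^ k), if a + b = n then w d k a * w d k b else 0

theorem D_nonneg {d : ℝ} (h0 : 0 ≤ d) (h1 : d ≤ 1) (k n : ℕ) : 0 ≤ D d k n := by
  refine sum_nonneg fun a _ => sum_nonneg fun b _ => ?_
  split_ifs
  · exact mul_nonneg (w_nonneg h0 h1 k a) (w_nonneg h0 h1 k b)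
  · exact le_rfl

/-- the shifted convolution -/
noncomputable def D' (d : ℝ) (k n : ℕ) : ℝ := if n = 0 then 0 else D d k (n - 1)

theorem D'_eq (d : ℝ) (k n : ℕ) : D' d k n =
    ∑ a ∈ range (2 ^ k), ∑ b ∈ range (2 ^ k),
      if a + b + 1 = n then w d k a * w d k b else 0 := by
  unfold D'
  split_ifs with h
  · symm
    refine sum_eq_zero fun a _ => sum_eq_zero fun b _ => ?_
    rw [if_neg (by omega)]
  · unfold D
    refine sum_congr rfl fun a _ => sum_congr rfl fun b _ => ?_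
    by_cases h1 : a + b = n - 1
    · rw [if_pos h1, if_pos (by omega)]
    · rw [if_neg h1, if_neg (by omega)]

theorem D_split (d : ℝ) (k n : ℕ) : D d (k + 1) n =
    ∑ a ∈ range (2 ^ k), ∑ b ∈ range (2 ^ k),
      (((if 2 * a + 2 * b = n then (1 + d) * w d k a * ((1 + d) * w d k b) else 0) +
        (if 2 * a + (2 * b + 1) = n then (1 + d) * w d k a * ((1 - d) * w d k b) else 0)) +
      ((if 2 * a + 1 + 2 * b = n then (1 - d) * w d k a * ((1 + d) * w d k b) else 0) +
        (if 2 * a + 1 + (2 * b + 1) = n then (1 - d) * w d k a * ((1 - d) * w d k b) else 0))) := by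
  unfold D
  rw [pow_succ', sum_split]
  refine sum_congr rfl fun a _ => ?_
  rw [sum_split, sum_split, ← sum_add_distrib]
  refine sum_congr rfl fun b _ => ?_
  simp only [w_even, w_odd]

theorem D_even (d : ℝ) (k m : ℕ) :
    D d (k + 1) (2 * m) = (1 + d) ^ 2 * D d k m + (1 - d) ^ 2 * D' d k m := by
  rw [D_split, D'_eq]
  unfold D
  rw [mul_sum, mul_sum, ← sum_add_distrib]
  refine sum_congr rfl fun a _ => ?_
  rw [mul_sum, mul_sum, ← sum_add_distrib]
  refine sum_congr rfl fun b _ => ?_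
  rw [if_neg (show ¬ 2 * a + (2 * b + 1) = 2 * m by omega),
    if_neg (show ¬ 2 * a + 1 + 2 * b = 2 * m by omega)]
  by_cases h1 : a + b = m
  · rw [if_pos (show 2 * a + 2 * b = 2 * m by omega), if_pos h1,
      if_neg (show ¬ 2 * a + 1 + (2 * b + 1) = 2 * m by omega),
      if_neg (show ¬ a + b + 1 = m by omega)]
    ring
  · rw [if_neg (show ¬ 2 * a + 2 * b = 2 * m by omega), if_neg h1]
    by_cases h2 : a + b + 1 = m
    · rw [if_pos (show 2 * a + 1 + (2 * b + 1) = 2 * m by omega), if_pos h2]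
      ring
    · rw [if_neg (show ¬ 2 * a + 1 + (2 * b + 1) = 2 * m by omega), if_neg h2]
      ring

theorem D_odd (d : ℝ) (k m : ℕ) :
    D d (k + 1) (2 * m + 1) = 2 * (1 - d ^ 2) * D d k m := by
  rw [D_split]
  unfold D
  rw [mul_sum]
  refine sum_congr rfl fun a _ => ?_
  rw [mul_sum]
  refine sum_congr rfl fun b _ => ?_
  rw [if_neg (show ¬ 2 * a + 2 * b = 2 * m + 1 by omega),
    if_neg (show ¬ 2 * a + 1 + (2 * b + 1) = 2 * m + 1 by omega)]
  by_cases h1 : a + b = m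
  · rw [if_pos (show 2 * a + (2 * b + 1) = 2 * m + 1 by omega),
      if_pos (show 2 * a + 1 + 2 * b = 2 * m + 1 by omega), if_pos h1]
    ring
  · rw [if_neg (show ¬ 2 * a + (2 * b + 1) = 2 * m + 1 by omega),
      if_neg (show ¬ 2 * a + 1 + 2 * b = 2 * m + 1 by omega), if_neg h1]
    ring

theorem D'_succ (d : ℝ) (k m : ℕ) : D' d k (m + 1) = D d k m := by
  unfold D'
  rw [if_neg (by omega), Nat.add_sub_cancel]

theorem D'_sq_sum_le (d : ℝ) (k N : ℕ) :
    ∑ m ∈ range N, D' d k m ^ 2 ≤ ∑ m ∈ range N, D d k m ^ 2 := by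
  cases N with
  | zero => simp
  | succ N =>
    rw [sum_range_succ', sum_range_succ]
    simp_rw [D'_succ]
    have h1 : D' d k 0 = 0 := by unfold D'; rw [if_pos rfl]
    rw [h1]
    have h2 := sq_nonneg (D d k N)
    linarith

theorem D'_mul_sum_le {d : ℝ} (h0 : 0 ≤ d) (h1 : d ≤ 1) (k N : ℕ) :
    ∑ m ∈ range N, D d k m * D' d k m ≤ ∑ m ∈ range N, D d k m * D d k (m + 1) := by
  cases N with
  | zero => simp
  | succ N =>
    rw [sum_range_succ', sum_range_succ]
    simp_rw [D'_succ]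
    have h3 : D' d k 0 = 0 := by unfold D'; rw [if_pos rfl]
    rw [h3, mul_zero, add_zero]
    have h2 := mul_nonneg (D_nonneg h0 h1 k N) (D_nonneg h0 h1 k (N + 1))
    have h4 : ∑ m ∈ range N, D d k (m + 1) * D d k m = ∑ m ∈ range N, D d k m * D d k (m + 1) :=
      sum_congr rfl fun m _ => mul_comm _ _
    rw [h4]
    linarith

/-- The energy and the energy with a carry. -/
theorem energy_aux {d : ℝ} (h0 : 0 ≤ d) (h1 : d ≤ 1) (k : ℕ) : ∀ N : ℕ,
    ∑ n ∈ range N, D d k n ^ 2 ≤ (8 * (1 + d ^ 4)) ^ k ∧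
      ∑ n ∈ range N, D d k n * D d k (n + 1) ≤ (8 * (1 + d ^ 4)) ^ k := by
  induction k with
  | zero =>
    intro N
    have hD : ∀ n, D d 0 n = if n = 0 then 1 else 0 := by
      intro n
      unfold D
      simp only [pow_zero, range_one, sum_singleton, w, add_zero, mul_one]
      by_cases h : n = 0
      · rw [if_pos h.symm, if_pos h]
      · rw [if_neg (fun h' => h h'.symm), if_neg h]
    constructor
    · simp_rw [hD]
      rw [pow_zero]
      have : ∀ n ∈ range N, (if n = 0 then (1 : ℝ) else 0) ^ 2 = if n = 0 then 1 else 0 := by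
        intro n _
        split_ifs <;> norm_num
      rw [sum_congr rfl this, sum_ite_eq']
      split_ifs <;> norm_num
    · simp_rw [hD]
      rw [pow_zero, sum_eq_zero]
      · exact zero_le_one
      · intro n _
        rw [if_neg (show ¬ n + 1 = 0 by omega), mul_zero]
  | succ k ih =>
    intro N
    obtain ⟨i1, i2⟩ := ih N
    set R := (8 * (1 + d ^ 4)) ^ k with hR
    have hRR : (8 * (1 + d ^ 4)) ^ (k + 1) = R * (8 * (1 + d ^ 4)) := by rw [hR, pow_succ]
    have hsq : ∑ n ∈ range (2 * N), D d (k + 1) n ^ 2 ≤ (8 * (1 + d ^ 4)) ^ (k + 1) := by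
      rw [sum_split]
      simp_rw [D_even, D_odd]
      have e : ∀ m ∈ range N, ((1 + d) ^ 2 * D d k m + (1 - d) ^ 2 * D' d k m) ^ 2 +
          (2 * (1 - d ^ 2) * D d k m) ^ 2 =
          ((1 + d) ^ 4 + 4 * (1 - d ^ 2) ^ 2) * D d k m ^ 2 + (1 - d) ^ 4 * D' d k m ^ 2 +
            2 * (1 - d ^ 2) ^ 2 * (D d k m * D' d k m) := by
        intro m _
        ring
      rw [sum_congr rfl e, sum_add_distrib, sum_add_distrib, ← mul_sum, ← mul_sum, ← mul_sum]
      have a1 := mul_le_mul_of_nonneg_left i1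
        (by positivity : 0 ≤ (1 + d) ^ 4 + 4 * (1 - d ^ 2) ^ 2)
      have a2 := mul_le_mul_of_nonneg_left ((D'_sq_sum_le d k N).trans i1)
        (by positivity : 0 ≤ (1 - d) ^ 4)
      have a3 := mul_le_mul_of_nonneg_left ((D'_mul_sum_le h0 h1 k N).trans i2)
        (by positivity : 0 ≤ 2 * (1 - d ^ 2) ^ 2)
      have a4 : ((1 + d) ^ 4 + 4 * (1 - d ^ 2) ^ 2) * R + (1 - d) ^ 4 * R +
          2 * (1 - d ^ 2) ^ 2 * R = R * (8 * (1 + d ^ 4)) := by ring
      rw [hRR, ← a4]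
      exact add_le_add (add_le_add a1 a2) a3
    have hmul : ∑ n ∈ range (2 * N), D d (k + 1) n * D d (k + 1) (n + 1) ≤
        (8 * (1 + d ^ 4)) ^ (k + 1) := by
      rw [sum_split]
      have e : ∀ m ∈ range N, D d (k + 1) (2 * m) * D d (k + 1) (2 * m + 1) +
          D d (k + 1) (2 * m + 1) * D d (k + 1) (2 * m + 1 + 1) =
          4 * (1 - d ^ 2) * (1 + d ^ 2) * D d k m ^ 2 +
          2 * (1 - d ^ 2) * (1 - d) ^ 2 * (D d k m * D' d k m) +
          2 * (1 - d ^ 2) * (1 + d) ^ 2 * (D d k m * D d k (m + 1)) := by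
        intro m _
        rw [show 2 * m + 1 + 1 = 2 * (m + 1) by ring, D_even, D_odd, D_even, D'_succ]
        ring
      rw [sum_congr rfl e, sum_add_distrib, sum_add_distrib, ← mul_sum, ← mul_sum, ← mul_sum]
      have hd2 : 0 ≤ 1 - d ^ 2 := by nlinarith
      have a1 := mul_le_mul_of_nonneg_left i1
        (by positivity : 0 ≤ 4 * (1 - d ^ 2) * (1 + d ^ 2))
      have a2 := mul_le_mul_of_nonneg_left ((D'_mul_sum_le h0 h1 k N).trans i2)
        (by positivity : 0 ≤ 2 * (1 - d ^ 2) * (1 - d) ^ 2)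
      have a3 := mul_le_mul_of_nonneg_left i2
        (by positivity : 0 ≤ 2 * (1 - d ^ 2) * (1 + d) ^ 2)
      have hRn : 0 ≤ R := by positivity
      have a4 : 4 * (1 - d ^ 2) * (1 + d ^ 2) * R + 2 * (1 - d ^ 2) * (1 - d) ^ 2 * R +
          2 * (1 - d ^ 2) * (1 + d) ^ 2 * R = R * (8 * (1 - d ^ 4)) := by ring
      have a5 : R * (8 * (1 - d ^ 4)) ≤ R * (8 * (1 + d ^ 4)) :=
        mul_le_mul_of_nonneg_left (by nlinarith [pow_nonneg h0 4]) hRn
      rw [hRR]
      refine (add_le_add (add_le_add a1 a2) a3).trans ?_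
      rw [a4]
      exact a5
    have hmono : range N ⊆ range (2 * N) := range_subset_range.2 (by omega)
    refine ⟨(sum_le_sum_of_subset_of_nonneg hmono fun n _ _ => sq_nonneg _).trans hsq,
      (sum_le_sum_of_subset_of_nonneg hmono fun n _ _ => ?_).trans hmul⟩
    exact mul_nonneg (D_nonneg h0 h1 _ _) (D_nonneg h0 h1 _ _)

/-- The energy of the weight. -/
theorem energy {d : ℝ} (h0 : 0 ≤ d) (h1 : d ≤ 1) (k : ℕ) :
    ∑ q ∈ quad (range (2 ^ k)), w d k q.1.1 * w d k q.1.2 * (w d k q.2.1 * w d k q.2.2) ≤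
      (8 * (1 + d ^ 4)) ^ k := by
  rw [sum_quad_eq]
  refine le_trans (le_of_eq ?_) (energy_aux h0 h1 k (2 * 2 ^ k)).1
  refine sum_congr rfl fun n _ => ?_
  congr 1
  rw [sum_filter, sum_product]
  rfl

/-- Most of the weight is on the numbers with many digits `0`. -/
theorem mass {d : ℝ} (h0 : 0 < d) (h1 : d ≤ 1) (k : ℕ) (hk : 8 ≤ k * d ^ 2) :
    (2 : ℝ) ^ k / 2 ≤ ∑ a ∈ (range (2 ^ k)).filter (fun a => k * d / 2 ≤ (X k a : ℝ)), w d k a := by
  have e := sum_filter_add_sum_filter_not (range (2 ^ k)) (fun a => k * d / 2 ≤ (X k a : ℝ))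
    (fun a => w d k a)
  rw [sum_w] at e
  have hb : ∑ a ∈ (range (2 ^ k)).filter (fun a => ¬ k * d / 2 ≤ (X k a : ℝ)), w d k a ≤
      (2 : ℝ) ^ k / 2 := by
    have h2 : (k * d / 2) ^ 2 * ∑ a ∈ (range (2 ^ k)).filter
        (fun a => ¬ k * d / 2 ≤ (X k a : ℝ)), w d k a ≤ k * (1 - d ^ 2) * 2 ^ k := by
      rw [← sum_wXX, mul_sum]
      refine le_trans ?_ (sum_le_sum_of_subset_of_nonneg (filter_subset
        (fun a => ¬ k * d / 2 ≤ (X k a : ℝ)) (range (2 ^ k))) fun a _ _ =>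
          mul_nonneg (w_nonneg h0.le h1 k a) (sq_nonneg _))
      refine sum_le_sum fun a ha => ?_
      rw [mul_comm]
      refine mul_le_mul_of_nonneg_left ?_ (w_nonneg h0.le h1 k a)
      have h3 := not_le.1 (mem_filter.1 ha).2
      have h4 : (0 : ℝ) ≤ k * d / 2 := by positivity
      nlinarith
    have hk0 : (0 : ℝ) < k := by
      by_contra hcon
      have : (k : ℝ) ≤ 0 := not_lt.1 hcon
      nlinarith [sq_nonneg d]
    have h5 : (0 : ℝ) < 2 ^ k := by positivity
    have h6 : (k : ℝ) * (1 - d ^ 2) * 2 ^ k ≤ k * 2 ^ k := by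
      have : (0 : ℝ) ≤ k * 2 ^ k * d ^ 2 := by positivity
      nlinarith
    have h7 : (k * d / 2) ^ 2 * ((2 : ℝ) ^ k / 2) ≥ k * 2 ^ k := by
      have h8 : (k * d / 2) ^ 2 * ((2 : ℝ) ^ k / 2) = (k * d ^ 2) * (k * 2 ^ k) / 8 := by ring
      rw [h8]
      have h9 : (0 : ℝ) < k * 2 ^ k := by positivity
      nlinarith
    have h10 : (0 : ℝ) < (k * d / 2) ^ 2 := by positivity
    exact le_of_mul_le_mul_left ((h2.trans h6).trans h7) h10
  linarith

end Pool.Agent.Helper87.TQ
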