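import Mathlib

/-!
The bias `c * k ^ (-1/4)`.
-/

set_option autoImplicit false

namespace Pool.Agent.Helper87.TQ

open Filter

/-- The facts on the bias that the block needs. -/
theorem par {c : ℝ} (hc : 0 < c) : ∃ k0 : ℕ, ∀ k : ℕ, k0 ≤ k →
    0 < c * (k : ℝ) ^ (-(1 / 4) : ℝ) ∧ c * (k : ℝ) ^ (-(1 / 4) : ℝ) ≤ 2 / 5 ∧
      8 ≤ k * (c * (k : ℝ) ^ (-(1 / 4) : ℝ)) ^ 2 ∧
      (1 + (c * (k : ℝ) ^ (-(1 / 4) : ℝ)) ^ 4) ^ k ≤ Real.exp (c ^ 4) := by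
  have h1 : Tendsto (fun x : ℝ => x ^ (1 / 4 : ℝ)) atTop atTop := tendsto_rpow_atTop (by norm_num)
  have h2 := (h1.comp tendsto_natCast_atTop_atTop).eventually
    (eventually_ge_atTop (max (5 / 2 * c) (3 / c)))
  obtain ⟨k0, hk0⟩ := eventually_atTop.1 (h2.and (eventually_gt_atTop 0))
  refine ⟨k0, fun k hk => ?_⟩
  obtain ⟨h3, hkpos⟩ := hk0 k hk
  have hkp : (0 : ℝ) < k := by exact_mod_cast hkpos
  set y : ℝ := (k : ℝ) ^ (1 / 4 : ℝ) with hy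
  have h3' : max (5 / 2 * c) (3 / c) ≤ y := h3
  have hy0 : 0 < y := Real.rpow_pos_of_pos hkp _
  have e1 : (k : ℝ) ^ (-(1 / 4) : ℝ) = y⁻¹ := Real.rpow_neg hkp.le _
  have e4 : y ^ 4 = k := by
    rw [hy, ← Real.rpow_natCast, ← Real.rpow_mul hkp.le]
    norm_num
  rw [e1]
  have h4 : 5 / 2 * c ≤ y := (le_max_left _ _).trans h3'
  have h5 : 3 / c ≤ y := (le_max_right _ _).trans h3'
  refine ⟨by positivity, ?_, ?_, ?_⟩
  · rw [← div_eq_mul_inv, div_le_iff₀ hy0]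
    linarith
  · rw [mul_pow, inv_pow, ← e4]
    have e5 : y ^ 4 * (c ^ 2 * (y ^ 2)⁻¹) = (c * y) ^ 2 := by
      field_simp
    rw [e5]
    have h6 : 3 ≤ c * y := by
      rw [div_le_iff₀ hc] at h5
      linarith
    nlinarith
  · have h6 := Real.add_one_le_exp ((c * y⁻¹) ^ 4)
    calc (1 + (c * y⁻¹) ^ 4) ^ k ≤ (Real.exp ((c * y⁻¹) ^ 4)) ^ k := by
          refine pow_le_pow_left₀ (by positivity) ?_ k
          linarith
      _ = Real.exp (c ^ 4) := by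
          rw [← Real.exp_nat_mul, mul_pow, inv_pow, e4]
          congr 1
          field_simp

end Pool.Agent.Helper87.TQ
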